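import Pool.Agent.J6H56.QStack.Main

open CategoryTheory Limits AlgebraicGeometry TopologicalSpace Opposite
open Pool.Agent.J6H56.QStack

namespace Pool.Agent.Results.MP_70d7ca_ag.QuotientStackNotModuli

lemma isLinearAlgebraic_pt : IsLinearAlgebraic pt where
  affine := inferInstanceAs (IsAffineHom (𝟙 (Spec (CommRingCat.of ℂ))))
  finiteType := inferInstanceAs (LocallyOfFiniteType (𝟙 (Spec (CommRingCat.of ℂ))))

lemma one_compat (X : Scheme.{0}) (V : X.Opens) (hi hj : V ≤ ⊤) (hij : V ≤ ⊤ ⊓ ⊤) :
    res hi (1 : Fn X ⊤) = (res hij (1 : Fn X (⊤ ⊓ ⊤))) ^ 1 * res hj (1 : Fn X ⊤) := by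
  rw [res_one, res_one, one_pow, one_mul]

/-- the section `1` of the trivial line bundle -/
noncomputable def oneSection (X : Scheme.{0}) : (LineBundle.trivial X).PowSection 1 where
  s _ := 1
  compat _ _ V hi hj hij := one_compat X V hi hj hij

lemma isAmple_trivial (X : Scheme.{0}) [IsAffine X] : (LineBundle.trivial X).IsAmple := by
  have h : (oneSection X).nonvanishing = ⊤ := by
    apply top_le_iff.mp
    refine le_trans ?_ (le_iSup _ PUnit.unit)
    change (⊤ : X.Opens) ≤ X.basicOpen (U := ⊤) 1
    rw [Scheme.basicOpen_of_isUnit _ isUnit_one]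
  refine ⟨inferInstance, fun x => ⟨1, le_rfl, oneSection X, ?_, ?_⟩⟩
  · rw [h]
    exact TopologicalSpace.Opens.mem_top x
  · rw [h]
    exact isAffineOpen_top X

lemma isQuasiProjective_specC (A : Type) [CommRing A] [Algebra ℂ A] [Algebra.FiniteType ℂ A] :
    IsQuasiProjective (specC A) where
  quasiCompact := inferInstanceAs (QuasiCompact (Spec.map _))
  separated := inferInstanceAs (IsSeparated (Spec.map _))
  finiteType := by
    change LocallyOfFiniteType (Spec.map (CommRingCat.ofHom (algebraMap ℂ A)))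
    rw [HasRingHomProperty.Spec_iff (P := @LocallyOfFiniteType)]
    change RingHom.FiniteType (algebraMap ℂ A)
    rwa [RingHom.finiteType_algebraMap]
  ample := by
    have : IsAffine (specC A).left := inferInstanceAs (IsAffine (Spec _))
    exact ⟨_, isAmple_trivial _⟩

/-- There are a quasi-projective `ℂ`-scheme `Z` and an action on `Z` of a linear algebraic group
`G` over `ℂ` such that, for every class `𝒞` of polarized manifolds, the quotient stack `[Z/G]` is
not isomorphic to the moduli stack `ℳ_𝒞`. -/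
theorem result : ∃ (Z G : SchC) (γ : GroupStructure G) (α : GroupAction γ Z),
    IsQuasiProjective Z ∧ IsLinearAlgebraic G ∧
      ∀ 𝒞 : PolarizedClass,
        ¬ StackIsomorphic (QuotientStack.proj γ α) (ModuliStack.proj 𝒞) := by
  obtain ⟨φ, l, hφ, hl⟩ := exists_twist
  have h0 : l ≠ 0 := by
    rintro rfl
    rw [map_zero] at hl
    exact hl rfl
  have h1 : l ≠ 1 := by
    rintro rfl
    rw [map_one] at hl
    exact hl rfl
  refine ⟨specC (FourLines l), pt, trivGroup, trivAction _,
    isQuasiProjective_specC _, isLinearAlgebraic_pt, fun 𝒞 H => ?_⟩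
  obtain ⟨D, hD0, hadd, hmul, hC⟩ := exists_derivation (FourLines l) 𝒞 φ hφ H
  exact hl (no_lift l (fun c => (φ c).snd) h0 h1 D hD0 hadd hmul hC)

end Pool.Agent.Results.MP_70d7ca_ag.QuotientStackNotModuli
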